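import Mathlib

set_option autoImplicit false

open Set

namespace Pool.Agent.Results.MP_36d6be_co.Reduction

/-- The area of the triangle `a b c`. -/
noncomputable def area {V : Type} [NormedAddCommGroup V] [InnerProductSpace ℝ V] (a b c : V) : ℝ :=
  (1 / 2 : ℝ) * Real.sqrt (‖b - a‖ ^ 2 * ‖c - a‖ ^ 2 - (inner ℝ (b - a) (c - a)) ^ 2)

/-- Any three distinct points of `S` span a triangle of nonzero rational area. -/
def RatArea {V : Type} [NormedAddCommGroup V] [InnerProductSpace ℝ V] (S : Set V) : Prop :=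
  ∀ a ∈ S, ∀ b ∈ S, ∀ c ∈ S, a ≠ b → b ≠ c → a ≠ c → ∃ q : ℚ, q ≠ 0 ∧ area a b c = (q : ℝ)

/-- There are a rational `t > 0` and `k` distinct rationals `e i` such that infinitely many
rationals `x` make every `t * x * (e i - x)` a rational square. -/
def ManySquares (k : ℕ) : Prop :=
  ∃ (t : ℚ) (e : Fin k → ℚ), 0 < t ∧ Function.Injective e ∧
    {x : ℚ | ∀ i, IsSquare (t * x * (e i - x))}.Infinite

/-- Some curve `y ^ 2 = (x - e 0) ⋯ (x - e 5)` with distinct rational `e i` has rational points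
with infinitely many different `x`. -/
def GenusTwoInfinite : Prop :=
  ∃ e : Fin 6 → ℚ, Function.Injective e ∧ {x : ℚ | ∃ y : ℚ, y ^ 2 = ∏ i, (x - e i)}.Infinite

theorem quart {c4 : ℝ} (h : c4 ≠ 0) (c3 c2 c1 c0 : ℝ) :
    {x : ℝ | c4 * x ^ 4 + c3 * x ^ 3 + c2 * x ^ 2 + c1 * x + c0 = 0}.Finite := by
  let p : Polynomial ℝ := Polynomial.monomial 4 c4 + Polynomial.monomial 3 c3 +
    Polynomial.monomial 2 c2 + Polynomial.monomial 1 c1 + Polynomial.monomial 0 c0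
  have hp : p ≠ 0 := fun k => h (by
    have := congrArg (fun q : Polynomial ℝ => q.coeff 4) k
    simpa [p, Polynomial.coeff_monomial] using this)
  refine (Polynomial.finite_setOf_isRoot hp).subset fun x hx => ?_
  simpa [p, Polynomial.IsRoot] using hx

theorem fin3 {B C E : ℝ} (h : B * C - E ^ 2 ≠ 0) (k r1 r2 : ℝ) :
    {X : ℝ | ∃ u v, u ^ 2 = B * X - r1 ∧ v ^ 2 = C * X - r2 ∧
      k - 2 * E * X + 2 * (E - C) * u + 2 * (E - B) * v + 2 * u * v = 0}.Finite := by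
  obtain ⟨p, hp⟩ : ∃ p, p = 2 * (E - C) := ⟨_, rfl⟩
  obtain ⟨q, hq⟩ : ∃ q, q = 2 * (E - B) := ⟨_, rfl⟩
  rw [← hp, ← hq]
  let A2 := 4 * E ^ 2 - 4 * B * C
  let A1 := -4 * E * k + p ^ 2 * B - C * q ^ 2 + 4 * B * r2 + 4 * C * r1
  let A0 := k ^ 2 - p ^ 2 * r1 + r2 * q ^ 2 - 4 * r1 * r2
  let b1 := 4 * q * C + 4 * E * p
  let b0 := -4 * q * r2 - 2 * k * p
  have : A2 ^ 2 ≠ 0 := pow_ne_zero _ fun e => h (by simp only [A2] at e; linarith)
  refine (quart this (2 * A2 * A1 - B * b1 ^ 2) (A1 ^ 2 + 2 * A2 * A0 - 2 * B * b1 * b0 + r1 * b1 ^ 2)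
    (2 * A1 * A0 - B * b0 ^ 2 + 2 * r1 * b1 * b0) (A0 ^ 2 + r1 * b0 ^ 2)).subset ?_
  rintro X ⟨u, v, hu, hv, e⟩
  have e0 : k - 2 * E * X + p * u = -v * (q + 2 * u) := by linarith
  have e1 : (k - 2 * E * X + p * u) ^ 2 = (C * X - r2) * (q + 2 * u) ^ 2 := by
    rw [e0, ← hv]; ring
  have e2 : A2 * X ^ 2 + A1 * X + A0 = u * (b1 * X + b0) := by
    simp only [A2, A1, A0, b1, b0]
    linear_combination e1 - (p ^ 2 - 4 * (C * X - r2)) * hu
  have e3 : (A2 * X ^ 2 + A1 * X + A0) ^ 2 = (B * X - r1) * (b1 * X + b0) ^ 2 := by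
    rw [e2, mul_pow, hu]
  show _ = (0 : ℝ)
  linear_combination e3

theorem arith {k : ℕ} {D : Fin (k + 2) → ℝ} (hD : Function.Injective D) {Δ : Set ℝ}
    (hΔ : Δ.Infinite) (h : ∀ δ ∈ Δ, 0 < δ ∧ ∀ i, ∃ r : ℚ, δ * (4 * D i - δ) = r ^ 2) :
    ∃ (t : ℚ) (e : Fin (k + 2) → ℚ), 0 < t ∧ Function.Injective e ∧
      {x : ℚ | ∀ i, IsSquare (t * x * (e i - x))}.Infinite := by
  obtain ⟨d, hd, d1, hd1, ne⟩ := hΔ.nontrivial
  have d0 := (h d hd).1
  have n01 : D 0 - D 1 ≠ 0 := sub_ne_zero.2 fun e => by simpa using hD e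
  have hq : ∀ δ ∈ Δ, ∃ q : ℚ, δ = q * d := by
    intro δ hδ
    obtain ⟨a, ha⟩ := (h δ hδ).2 0
    obtain ⟨b, hb⟩ := (h δ hδ).2 1
    obtain ⟨a', ha'⟩ := (h d hd).2 0
    obtain ⟨b', hb'⟩ := (h d hd).2 1
    refine ⟨(a ^ 2 - b ^ 2) / (a' ^ 2 - b' ^ 2), ?_⟩
    push_cast
    rw [← ha, ← hb, ← ha', ← hb', show δ * (4 * D 0 - δ) - δ * (4 * D 1 - δ) =
      δ * (4 * (D 0 - D 1)) by ring, show d * (4 * D 0 - d) - d * (4 * D 1 - d) =
      d * (4 * (D 0 - D 1)) by ring]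
    field_simp
  obtain ⟨t, ht⟩ : ∃ t : ℚ, d ^ 2 = t := by
    obtain ⟨q, rfl⟩ := hq d1 hd1
    obtain ⟨r, hr⟩ := (h d hd).2 0
    obtain ⟨s, hs⟩ := (h _ hd1).2 0
    have q0 : (q : ℝ) ≠ 0 := fun e => by simpa [e] using (h _ hd1).1
    have q1 : (q : ℝ) - 1 ≠ 0 := fun e => ne (by rw [sub_eq_zero.1 e, one_mul])
    refine ⟨(q * r ^ 2 - s ^ 2) / (q * (q - 1)), ?_⟩
    push_cast
    rw [← hr, ← hs]
    field_simp
    ring
  choose r hr using (h d hd).2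
  have he : ∀ i, ((r i ^ 2 + t : ℚ) : ℝ) = 4 * D i * d := fun i => by
    push_cast
    rw [← hr, ← ht]; ring
  refine ⟨t, fun i => r i ^ 2 + t, by exact_mod_cast ht ▸ pow_pos d0 2, fun i j e => hD ?_, ?_⟩
  · have : 4 * D i * d = 4 * D j * d := by rw [← he, ← he]; exact congrArg _ e
    have := mul_right_cancel₀ d0.ne' this
    linarith
  · refine Infinite.of_image (fun x : ℚ => (x : ℝ) / d) (hΔ.mono fun δ hδ => ?_)
    obtain ⟨q, rfl⟩ := hq δ hδ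
    refine ⟨t * q, fun i => ?_, ?_⟩
    · obtain ⟨s, hs⟩ := (h _ hδ).2 i
      refine ⟨t * s, Rat.cast_injective (α := ℝ) ?_⟩
      rw [Rat.cast_mul, Rat.cast_sub, he]
      push_cast
      rw [← ht]
      linear_combination d ^ 4 * hs
    · push_cast
      rw [← ht]
      field_simp

theorem sep : TopologicalSpace.SeparableSpace (lp (fun _ : ℕ => ℝ) 2) := by
  rw [← TopologicalSpace.isSeparable_univ_iff]
  refine ((countable_range fun i : ℕ => (lp.single 2 i (1 : ℝ) : lp (fun _ : ℕ => ℝ) 2)).isSeparable.span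
    (R := ℝ)).closure.mono fun f _ => ?_
  refine mem_closure_of_tendsto (lp.hasSum_single (by simp) f) (Filter.Eventually.of_forall fun s => ?_)
  refine Submodule.sum_mem _ fun i _ => ?_
  have : lp.single 2 i (f i) = f i • (lp.single 2 i (1 : ℝ) : lp (fun _ : ℕ => ℝ) 2) := by
    rw [← lp.single_smul, smul_eq_mul, mul_one]
  rw [this]
  exact Submodule.smul_mem _ _ (Submodule.subset_span ⟨i, rfl⟩)

theorem result (S : Set (lp (fun _ : ℕ => ℝ) 2)) (hS : ¬ S.Countable) (h : RatArea S) :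
    (∀ k : ℕ, ManySquares k) ∧ GenusTwoInfinite := by
  have := sep
  have hG : ∀ a ∈ S, ∀ b ∈ S, ∀ c ∈ S, a ≠ b → b ≠ c → a ≠ c → ∃ q : ℚ, q ≠ 0 ∧
      ‖b - a‖ ^ 2 * ‖c - a‖ ^ 2 - (inner ℝ (b - a) (c - a)) ^ 2 = (2 * q) ^ 2 := by
    intro a ha b hb c hc h1 h2 h3
    obtain ⟨q, q0, hq⟩ := h a ha b hb c hc h1 h2 h3
    refine ⟨q, q0, ?_⟩
    rw [area] at hq
    have e : Real.sqrt (‖b - a‖ ^ 2 * ‖c - a‖ ^ 2 - (inner ℝ (b - a) (c - a)) ^ 2) = 2 * q := by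
      linarith
    rw [← e, Real.sq_sqrt]
    by_contra k
    rw [Real.sqrt_eq_zero_of_nonpos (not_le.1 k).le] at e
    exact q0 (by exact_mod_cast (by linarith : (q : ℝ) = 0))
  have small : ∀ T : Set (lp (fun _ : ℕ => ℝ) 2), ¬ T.Countable → ∀ ε : ℝ, 0 < ε →
      ∃ U ⊆ T, ¬ U.Countable ∧ ∀ x ∈ U, ∀ y ∈ U, ‖x - y‖ ^ 2 < ε := by
    intro T hT ε hε
    by_contra k
    push Not at k
    obtain ⟨u, hu⟩ := TopologicalSpace.exists_dense_seq (lp (fun _ : ℕ => ℝ) 2)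
    have s0 : 0 < Real.sqrt ε / 2 := by positivity
    refine hT ((countable_iUnion fun n => (?_ : (T ∩ Metric.ball (u n) (Real.sqrt ε / 2)).Countable)).mono
      fun x hx => ?_)
    · by_contra c
      obtain ⟨x, hx, y, hy, e⟩ := k _ inter_subset_left c
      have := dist_triangle_right x y (u n)
      have a := Metric.mem_ball.1 hx.2
      have b := Metric.mem_ball.1 hy.2
      rw [dist_eq_norm] at this
      exact (Real.lt_sqrt (norm_nonneg _)).1 (by linarith) |>.not_ge e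
    · obtain ⟨n, hn⟩ := hu.exists_dist_lt x s0
      exact mem_iUnion.2 ⟨n, hx, hn⟩
  have cnt : ∀ a ∈ S, ((fun x => ‖x - a‖ ^ 2) '' S).Countable := by
    intro a ha
    have inf : S.Infinite := fun k => hS k.countable
    obtain ⟨b, hb, b1⟩ := inf.exists_notMem_finite (finite_singleton a)
    obtain ⟨c, hc, c1⟩ := inf.exists_notMem_finite (toFinite {a, b})
    simp only [mem_insert_iff, mem_singleton_iff, not_or] at b1 c1
    obtain ⟨q, q0, hq⟩ := hG a ha b hb c hc (Ne.symm b1) (Ne.symm c1.2) (Ne.symm c1.1)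
    have nz : ‖b - a‖ ^ 2 * ‖c - a‖ ^ 2 - (inner ℝ (b - a) (c - a)) ^ 2 ≠ 0 := by
      rw [hq]; positivity
    refine (((toFinite {a, b, c}).image fun x => ‖x - a‖ ^ 2).countable.union
      (countable_iUnion fun r : ℚ × ℚ × ℚ => (fin3 nz ((2 * r.1) ^ 2 + (2 * r.2.1) ^ 2 +
        (2 * q) ^ 2 - (2 * r.2.2) ^ 2) ((2 * r.1) ^ 2) ((2 * r.2.1) ^ 2)).countable)).mono ?_
    rintro _ ⟨x, hx, rfl⟩
    by_cases k : x ∈ ({a, b, c} : Set _)
    · exact Or.inl ⟨x, k, rfl⟩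
    simp only [mem_insert_iff, mem_singleton_iff, not_or] at k
    obtain ⟨r1, -, e1⟩ := hG a ha b hb x hx (Ne.symm b1) (Ne.symm k.2.1) (Ne.symm k.1)
    obtain ⟨r2, -, e2⟩ := hG a ha c hc x hx (Ne.symm c1.1) (Ne.symm k.2.2) (Ne.symm k.1)
    obtain ⟨r3, -, e3⟩ := hG b hb c hc x hx (Ne.symm c1.2) (Ne.symm k.2.2) (Ne.symm k.2.1)
    refine Or.inr (mem_iUnion.2 ⟨(r1, r2, r3), inner ℝ (b - a) (x - a), inner ℝ (c - a) (x - a),
      by linarith, by linarith, ?_⟩)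
    rw [show c - b = (c - a) - (b - a) by abel, show x - b = (x - a) - (b - a) by abel] at e3
    dsimp only
    generalize b - a = b' at *
    generalize c - a = c' at *
    generalize x - a = x' at *
    rw [norm_sub_sq_real, norm_sub_sq_real, inner_sub_left, inner_sub_right, inner_sub_right,
      real_inner_self_eq_norm_sq, real_inner_comm b' c', real_inner_comm b' x'] at e3
    linear_combination e3 - e1 - e2 - hq
  have chain : ∀ k : ℕ, ∃ T ⊆ S, ¬ T.Countable ∧ ∃ (D : Fin k → ℝ) (ε : ℝ), 0 < ε ∧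
      Function.Injective D ∧ ∀ i, ε ≤ D i ∧ ∃ a ∈ S, ∀ x ∈ T, ‖x - a‖ ^ 2 = D i := by
    intro k
    induction k with
    | zero => exact ⟨S, Subset.rfl, hS, Fin.elim0, 1, one_pos, fun i => i.elim0, fun i => i.elim0⟩
    | succ k ih =>
      obtain ⟨T, T1, T2, D, ε, ε0, D1, D2⟩ := ih
      obtain ⟨U, U1, U2, U3⟩ := small T T2 ε ε0
      obtain ⟨a, ha⟩ : U.Nonempty := nonempty_iff_ne_empty.2 fun e => U2 (e ▸ countable_empty)
      obtain ⟨d, hd⟩ : ∃ d, ¬ {x ∈ U | ‖x - a‖ ^ 2 = d}.Countable := by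
        by_contra c
        push Not at c
        refine U2 (((cnt a (T1 (U1 ha))).biUnion fun d _ => c d).mono fun x hx => ?_)
        exact mem_iUnion₂.2 ⟨‖x - a‖ ^ 2, mem_image_of_mem _ (T1 (U1 hx)), hx, rfl⟩
      obtain ⟨x, ⟨x1, x2⟩, x3⟩ := Infinite.exists_notMem_finite (fun k => hd k.countable)
        (finite_singleton a)
      have d0 : 0 < d := x2 ▸ pow_pos (norm_pos_iff.2 (sub_ne_zero.2 x3)) 2
      have dε : d < ε := x2 ▸ U3 x x1 a ha
      refine ⟨_, fun x hx => T1 (U1 hx.1), hd, Fin.cons d D, d, d0,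
        Fin.cons_injective_iff.2 ⟨?_, D1⟩, Fin.cases ⟨le_rfl, a, T1 (U1 ha), fun x hx => hx.2⟩
          fun i => ⟨dε.le.trans (D2 i).1, ?_⟩⟩
      · rintro ⟨i, hi⟩
        exact (D2 i).1.not_gt (hi ▸ dε)
      · obtain ⟨b, b1, b2⟩ := (D2 i).2
        exact ⟨b, b1, fun x hx => b2 x (U1 hx.1)⟩
  have main : ∀ k : ℕ, ∃ (t : ℚ) (e : Fin k → ℚ), 0 < t ∧ Function.Injective e ∧
      {x : ℚ | ∀ i, IsSquare (t * x * (e i - x))}.Infinite := by
    intro k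
    obtain ⟨T, T1, T2, D, ε, ε0, D1, D2⟩ := chain (k + 2)
    let Δ : Set ℝ := {δ | ∃ x ∈ T, ∃ y ∈ T, x ≠ y ∧ ‖y - x‖ ^ 2 = δ}
    have pos : ∀ δ ∈ Δ, 0 < δ := by
      rintro _ ⟨x, -, y, -, ne, rfl⟩
      exact pow_pos (norm_pos_iff.2 (sub_ne_zero.2 ne.symm)) 2
    have lo : ∀ η : ℝ, 0 < η → ∃ δ ∈ Δ, δ < η := fun η h0 => by
      obtain ⟨U, U1, U2, U3⟩ := small T T2 η h0
      obtain ⟨x, hx, y, hy, ne⟩ := Infinite.nontrivial fun k : U.Finite => U2 k.countable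
      exact ⟨_, ⟨x, U1 hx, y, U1 hy, ne, rfl⟩, U3 y hy x hx⟩
    have inf : Δ.Infinite := fun k => by
      obtain ⟨δ, h1, -⟩ := lo 1 one_pos
      obtain ⟨m, m1, m2⟩ := exists_min_image Δ id k ⟨δ, h1⟩
      obtain ⟨δ', h2, h3⟩ := lo m (pos m m1)
      exact (m2 δ' h2).not_gt h3
    obtain ⟨t, e, t0, e1, e2⟩ := arith D1 inf fun δ hδ => ⟨pos δ hδ, fun i => by
      obtain ⟨x, hx, y, hy, ne, rfl⟩ := hδ
      obtain ⟨le, a, ha, hb⟩ := D2 i
      have na : ∀ z ∈ T, z ≠ a := fun z hz e => by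
        have := hb z hz
        rw [e, sub_self, norm_zero] at this
        linarith
      obtain ⟨q, -, hq⟩ := hG x (T1 hx) y (T1 hy) a ha ne (na y hy) (na x hx)
      have a1 := hb x hx
      have a2 := hb y hy
      rw [norm_sub_rev] at a1
      rw [show y - a = (y - x) - (a - x) by abel, norm_sub_sq_real, a1] at a2
      rw [a1, show inner ℝ (y - x) (a - x) = ‖y - x‖ ^ 2 / 2 by linarith] at hq
      exact ⟨4 * q, by push_cast; linear_combination 4 * hq⟩⟩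
    refine ⟨t, fun i => e i.succ.succ, t0,
      e1.comp ((Fin.succ_injective _).comp (Fin.succ_injective _)), e2.mono ?_⟩
    intro x hx i
    exact hx i.succ.succ
  refine ⟨main, ?_⟩
  obtain ⟨t, e, t0, e1, e2⟩ := main 6
  refine ⟨e, e1, (e2.sdiff (finite_singleton 0)).mono ?_⟩
  rintro x ⟨hx, x0⟩
  have x0 : x ≠ 0 := x0
  choose s hs using hx
  refine ⟨(∏ i, s i) / (t * x) ^ 3, ?_⟩
  have : ∀ i, x - e i = -(s i * s i) / (t * x) := fun i => by
    rw [← hs i]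
    field_simp
    ring
  simp only [this, Fin.prod_univ_six]
  field_simp

end Pool.Agent.Results.MP_36d6be_co.Reduction
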